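import Pool.Agent.Helper45.TW.Defs
import Pool.Agent.Helper26.VC.Places

/-!
# Project TW, block INF: the branch point at infinity
-/

set_option autoImplicit false
set_option linter.unusedSectionVars false

namespace Pool.Agent.TOW

open VC IntermediateField NumberField IsDedekindDomain Pool.Agent.SC Pool.Agent.L Pool.Agent.M
open Polynomial WithZero

/-! ### the place `t = 0` of `E(t)` -/

section line

variable {E F : Type} [Field E] [Field F] [Algebra E F]

/-- the place `t = 0` of `E(t)`, the orders of the polynomials in `t⁻¹`, and uniqueness -/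
theorem exists_zero17 (t : F) (ht : Transcendental E t) (hgen : IntermediateField.adjoin E {t} = ⊤) :
    ∃ P : Place E F, t ∈ P.ring.nonunits ∧
      (∀ f : E[X], f ≠ 0 → ord P.ring (aeval t⁻¹ f) = -(f.natDegree : ℤ)) ∧
      ∀ R : ValuationSubring F, (∀ a : E, algebraMap E F a ∈ R) → t ∈ R.nonunits → R = P.ring := by
  classical
  let _ : Algebra E[X] F := (aeval t).toRingHom.toAlgebra
  have hmap : ∀ p : E[X], algebraMap E[X] F p = aeval t p := fun p => rfl
  have : IsScalarTower E E[X] F := by
    refine IsScalarTower.of_algebraMap_eq fun a => ?_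
    rw [hmap, Polynomial.algebraMap_apply, Algebra.algebraMap_self_apply, aeval_C]
  have hinj : Function.Injective (algebraMap E[X] F) := transcendental_iff_injective.1 ht
  have hfaith : FaithfulSMul E[X] F := (faithfulSMul_iff_algebraMap_injective _ _).2 hinj
  have hfrac : IsFractionRing E[X] F := by
    refine IsFractionRing.of_field E[X] F fun z => ?_
    have hz : z ∈ IntermediateField.adjoin E {t} := by rw [hgen]; exact IntermediateField.mem_top
    obtain ⟨p, q, h⟩ := (IntermediateField.mem_adjoin_simple_iff E z).1 hz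
    exact ⟨p, q, h⟩
  let v0 : HeightOneSpectrum E[X] := ⟨Ideal.span {X}, maxX.isPrime, by
    rw [Ne, Ideal.span_singleton_eq_bot]; exact Polynomial.X_ne_zero⟩
  let P : Place E F := placeOfPrime (k := E) (F := F) E[X] v0
  have hXmem : algebraMap E[X] E[X] X ∈ v0.asIdeal := Ideal.mem_span_singleton_self X
  have hP : OverZero P := placeOfPrime_overZero E[X] v0 hXmem
  have hw : (v0.valuation F).valuationSubring = P.ring := rfl
  have hπ : v0.valuation F t = exp (-1 : ℤ) := by
    have h1 : v0.valuation F (algebraMap E[X] F X) = v0.intValuation X :=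
      HeightOneSpectrum.valuation_of_algebraMap _ _
    rw [hmap, aeval_X] at h1
    rw [h1]
    exact HeightOneSpectrum.intValuation_singleton v0 Polynomial.X_ne_zero rfl
  have ht0 : t ≠ 0 := by
    rintro rfl
    rw [map_zero] at hπ
    exact exp_ne_zero hπ.symm
  refine ⟨P, ?_, fun f hf => ?_, fun R hR htR => ?_⟩
  · have := hP
    unfold OverZero at this
    rwa [hmap, aeval_X] at this
  · have h1 : aeval t⁻¹ f * t ^ f.natDegree = aeval t f.reverse := by
      let _ : Invertible t⁻¹ := invertibleOfNonzero (inv_ne_zero ht0)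
      have h2 := Polynomial.eval₂_reverse_mul_pow (algebraMap E F) t⁻¹ f
      have h3 : (⅟t⁻¹ : F) = t := by
        rw [invOf_eq_inv, inv_inv]
      rw [h3] at h2
      rw [Polynomial.aeval_def, Polynomial.aeval_def, ← h2, mul_assoc, ← mul_pow, inv_mul_cancel₀ ht0,
        one_pow, mul_one]
    have h3 : v0.valuation F (aeval t f.reverse) = 1 := by
      rw [← hmap]
      refine le_antisymm (v0.valuation_le_one _) (not_lt.1 fun h4 => ?_)
      rw [HeightOneSpectrum.valuation_lt_one_iff_mem] at h4
      have h5 : X ∣ f.reverse := Ideal.mem_span_singleton.1 h4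
      rw [Polynomial.X_dvd_iff, Polynomial.coeff_zero_reverse, Polynomial.leadingCoeff_eq_zero] at h5
      exact hf h5
    have h6 : v0.valuation F (aeval t⁻¹ f) = exp (f.natDegree : ℤ) := by
      have h7 := congrArg (v0.valuation F) h1
      rw [h3, map_mul, map_pow, hπ, ← exp_nsmul] at h7
      have h8 := eq_inv_of_mul_eq_one_left h7
      rw [h8, ← exp_neg]
      congr 1
      simp
    have h8 : aeval t⁻¹ f ≠ 0 := by
      intro h9
      rw [h9, map_zero] at h6
      exact exp_ne_zero h6.symm
    have h9 := valuation_eq_exp_ord hw hπ h8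
    rw [h6, exp_inj] at h9
    linarith
  · have hR1 : R ≠ ⊤ := by
      rintro rfl
      rw [ValuationSubring.mem_nonunits_iff_or] at htR
      rcases htR with h | h
      · exact ht0 h
      · exact h (ValuationSubring.mem_top _)
    let P' : Place E F := ⟨R, hR, hR1⟩
    have hP' : OverZero P' := by
      unfold OverZero
      rw [hmap, aeval_X]
      exact htR
    have h1 : hos E[X] P' hP' = v0 := by
      ext1
      refine (maxX.eq_of_le ?_ ?_).symm
      · exact (hos E[X] P' hP').isPrime.ne_top
      · rw [Ideal.span_singleton_le_iff_mem]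
        exact X_mem_center E[X] P' hP'
    have h2 := valuationSubring_hos E[X] P' hP'
    rw [h1] at h2
    exact h2.symm

end line

theorem iNF : StmtINF := by
  intro k K0 E U _ _ _ _ _ _ _ _ _ _ _ _ x f r H
  have hcl := H.geo.clE
  have halg := H.geo.algE
  -- the generator of `L0`
  let xh : L0 E K0 (U := U) := inL0 x
  have hxh : (xh : U) = algebraMap K0 U x := rfl
  have hle : L0 E K0 (U := U) ≤ IntermediateField.adjoin E {algebraMap K0 U x} := by
    refine IntermediateField.adjoin_le_iff.2 ?_
    rintro _ ⟨y, rfl⟩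
    let N : IntermediateField k U :=
      (IntermediateField.adjoin E {algebraMap K0 U x}).restrictScalars k
    have h1 : IntermediateField.adjoin k {x} ≤ N.comap (IsScalarTower.toAlgHom k K0 U) := by
      refine IntermediateField.adjoin_le_iff.2 ?_
      rintro z hz
      rw [Set.mem_singleton_iff] at hz
      subst hz
      change algebraMap K0 U z ∈ IntermediateField.adjoin E {algebraMap K0 U z}
      exact IntermediateField.mem_adjoin_simple_self E _
    rw [H.gen] at h1
    exact h1 (IntermediateField.mem_top (x := y))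
  have hgen : IntermediateField.adjoin E {xh⁻¹} = ⊤ := by
    have h1 : IntermediateField.adjoin E {xh} = ⊤ := by
      rw [eq_top_iff]
      intro z _
      have h2 : (z : U) ∈ IntermediateField.adjoin E {algebraMap K0 U x} := hle z.2
      have h3 : (IntermediateField.adjoin E {xh}).map (L0 E K0 (U := U)).val =
          IntermediateField.adjoin E {algebraMap K0 U x} := by
        rw [IntermediateField.adjoin_map, Set.image_singleton]
        rfl
      rw [← h3] at h2
      obtain ⟨w, hw, hwz⟩ := h2
      have h4 : w = z := Subtype.ext hwz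
      rw [← h4]
      exact hw
    rw [eq_top_iff, ← h1]
    refine IntermediateField.adjoin_le_iff.2 ?_
    intro z hz
    rw [Set.mem_singleton_iff] at hz
    rw [hz]
    have h2 : xh⁻¹ ∈ IntermediateField.adjoin E {xh⁻¹} := IntermediateField.mem_adjoin_simple_self E _
    have h3 := inv_mem h2
    rwa [inv_inv] at h3
  have htr : Transcendental E xh⁻¹ := by
    intro h
    have h1 : IsAlgebraic E xh := by
      have := h.inv
      rwa [inv_inv] at this
    have h2 : IsAlgebraic E (algebraMap K0 U x) := h1.algHom (L0 E K0 (U := U)).val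
    have h3 : IsAlgebraic k (algebraMap K0 U x) := h2.restrictScalars k
    rw [isAlgebraic_algebraMap_iff (algebraMap K0 U).injective] at h3
    exact H.tr h3
  obtain ⟨b₀, hb1, hb2, hb3⟩ := exists_zero17 xh⁻¹ htr hgen
  have hx0 : xh ≠ 0 := by
    intro h
    apply htr
    rw [h, inv_zero]
    exact isAlgebraic_zero
  -- characterisation
  have key : ∀ R : ValuationSubring (L0 E K0 (U := U)),
      (∀ a : E, algebraMap E (L0 E K0 (U := U)) a ∈ R) → xh ∉ R → R = b₀.ring := by
    intro R hR hx
    refine hb3 R hR ?_
    rw [ValuationSubring.mem_nonunits_iff_or, inv_inv]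
    exact Or.inr hx
  have hxb : xh ∉ b₀.ring := by
    rw [ValuationSubring.mem_nonunits_iff_or, inv_inv] at hb1
    rcases hb1 with h | h
    · exact absurd (inv_eq_zero.1 h) hx0
    · exact h
  refine ⟨b₀, ?_, fun n Q => ⟨fun hQ => ?_, fun hQ hx hmem => ?_⟩, fun T hT => ?_⟩
  · have h1 : inL0 (E := E) (U := U) (aeval x f) = aeval (xh⁻¹)⁻¹ (f.map (algebraMap k E)) := by
      apply Subtype.ext
      rw [inv_inv]
      have h2 := Polynomial.aeval_algHom_apply (L0 E K0 (U := U)).val xh (f.map (algebraMap k E))
      have h3 : ((aeval xh (f.map (algebraMap k E)) : L0 E K0 (U := U)) : U) =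
          aeval (algebraMap K0 U x) (f.map (algebraMap k E)) := h2.symm
      rw [h3, Polynomial.aeval_map_algebraMap, Polynomial.aeval_algebraMap_apply]
      rfl
    unfold BPl
    rw [h1, hb2 _ (by rw [Ne, Polynomial.map_eq_zero]; exact H.irr.ne_zero), Polynomial.natDegree_map]
    intro h2
    have h3 : (2 : ℤ) ∣ (f.natDegree : ℤ) := by
      rw [← dvd_neg]
      exact h2
    have h4 : 2 ∣ f.natDegree := by exact_mod_cast h3
    exact (Nat.not_even_iff_odd.2 H.odd) (even_iff_two_dvd.2 h4)
  · have hsub : L0 E K0 (U := U) ≤ NX E K0 r (2 ^ n) := by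
      intro z hz
      refine IntermediateField.subset_adjoin _ _ (Or.inl ?_)
      refine IntermediateField.adjoin.mono _ _ _ Set.subset_union_left hz
    let i : L0 E K0 (U := U) →+* NX E K0 r (2 ^ n) := (IntermediateField.inclusion hsub : _ →ₐ[E] _)
    have hi : ∀ (z : U) (hz : z ∈ L0 E K0 (U := U)) (hz' : z ∈ NX E K0 r (2 ^ n)),
        i ⟨z, hz⟩ = ⟨z, hz'⟩ := fun z hz hz' => rfl
    have h1 : Q.ring.comap i = b₀.ring := by
      refine key _ (fun a => ?_) fun h2 => ?_
      · rw [ValuationSubring.mem_comap]
        exact Q.algebraMap_mem a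
      · rw [ValuationSubring.mem_comap] at h2
        exact hQ (hsub xh.2) h2
    intro z hz hz'
    rw [← h1, ValuationSubring.mem_comap, hi z hz hz']
  · exact hxb ((hQ _ xh.2 hx).2 hmem)
  · have hst : ∀ z ∈ L0 E K0 (U := U), T z ∈ L0 E K0 (U := U) := by
      intro z hz
      refine IntermediateField.adjoin_induction E (s := Set.range (algebraMap K0 U))
        (p := fun z _ => T z ∈ L0 E K0 (U := U)) ?_ ?_ ?_ ?_ ?_ hz
      · rintro _ ⟨y, rfl⟩
        rw [hT.fixK]
        exact IntermediateField.subset_adjoin _ _ ⟨y, rfl⟩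
      · intro e
        obtain ⟨e', he'⟩ := hT.presE e
        rw [he']
        exact (L0 E K0 (U := U)).algebraMap_mem e'
      · intro a b _ _ ha hb
        rw [map_add]
        exact add_mem ha hb
      · intro a _ ha
        rw [map_inv₀]
        exact inv_mem ha
      · intro a b _ _ ha hb
        rw [map_mul]
        exact mul_mem ha hb
    let τ : L0 E K0 (U := U) →+* L0 E K0 (U := U) :=
      ((T : U →+* U).comp (algebraMap (L0 E K0 (U := U)) U)).codRestrict
        (L0 E K0 (U := U)).toSubfield (fun z => hst z z.2)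
    have hτ : ∀ (z : U) (hz : z ∈ L0 E K0 (U := U)) (hz' : T z ∈ L0 E K0 (U := U)),
        τ ⟨z, hz⟩ = ⟨T z, hz'⟩ := fun z hz hz' => rfl
    have h1 : b₀.ring.comap τ = b₀.ring := by
      refine key _ (fun a => ?_) fun h2 => ?_
      · rw [ValuationSubring.mem_comap]
        obtain ⟨e', he'⟩ := hT.presE a
        have h3 : τ (algebraMap E (L0 E K0 (U := U)) a) = algebraMap E (L0 E K0 (U := U)) e' :=
          Subtype.ext he'
        rw [h3]
        exact b₀.algebraMap_mem e'
      · rw [ValuationSubring.mem_comap] at h2
        have h3 : τ xh = xh := Subtype.ext (hT.fixK x)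
        rw [h3] at h2
        exact hxb h2
    intro z hz hz'
    rw [← hτ z hz hz', ← ValuationSubring.mem_comap, h1]

end Pool.Agent.TOW
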