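import Pool.Agent.Helper29.TW.LDefs
import Pool.Agent.Helper13.M.Fin3

/-!
# Project TW, block LVA: almost no `c` has an action with an element without fixed point
-/

set_option autoImplicit false
set_option linter.unusedSectionVars false

namespace Pool.Agent.TW

open VC Filter Topology NumberField IsDedekindDomain IntermediateField Pool.Agent.SC Pool.Agent.L
open Pool.Agent.M (StmtW3 exists_lift13 exists_res13 exists_below13 frob_below13)
open Pool.Agent.HG (Pr nm IsOdd)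

section one

variable {k E : Type} [Field k] [NumberField k] [Field E] [IsAlgClosed E] [Algebra k E]
  [Algebra.IsAlgebraic k E] {P : Type}

private theorem lift_pow17 {M : IntermediateField k E} {σ : E ≃ₐ[k] E} {τ : M ≃ₐ[k] M}
    (h : ∀ x : M, σ x = τ x) (j : ℕ) (x : M) : (σ ^ j) x = (τ ^ j) x := by
  induction j generalizing x with
  | zero => rfl
  | succ j ih => rw [pow_succ, AlgEquiv.mul_apply, h, ih, pow_succ, AlgEquiv.mul_apply]

private theorem lift_inv17 {M : IntermediateField k E} {σ : E ≃ₐ[k] E} {τ : M ≃ₐ[k] M}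
    (h : ∀ x : M, σ x = τ x) (x : M) : σ⁻¹ x = τ⁻¹ x := by
  have h3 := h (τ⁻¹ x)
  have h4 : τ (τ⁻¹ x) = x := τ.apply_symm_apply x
  rw [h4] at h3
  rw [← h3]
  exact σ.symm_apply_apply _

private theorem lift_zpow17 {M : IntermediateField k E} {σ : E ≃ₐ[k] E} {τ : M ≃ₐ[k] M}
    (h : ∀ x : M, σ x = τ x) (n : ℤ) (x : M) : (σ ^ n) x = (τ ^ n) x := by
  rcases Int.eq_nat_or_neg n with ⟨j, rfl | rfl⟩
  · rw [zpow_natCast, zpow_natCast]
    exact lift_pow17 h j x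
  · rw [zpow_neg, zpow_natCast, ← inv_pow, zpow_neg, zpow_natCast, ← inv_pow]
    exact lift_pow17 (lift_inv17 h) j x

/-- one action -/
private theorem one17 (hW3 : StmtW3) (hCT : StmtCT) (ρ : (E ≃ₐ[k] E) →* Equiv.Perm P)
    (hc : ∃ L' : IntermediateField k E, FiniteDimensional k L' ∧
      ∀ g : E ≃ₐ[k] E, (∀ x ∈ L', g x = x) → ρ g = 1)
    (hσ : ∃ σ : E ≃ₐ[k] E, ∀ x : P, ρ σ x ≠ x) (Bad : Set (Pr k)) (hBad : Bad.Finite) :
    ∃ η C : ℝ, 0 < η ∧ ∀ X : ℕ, 3 ≤ X → ∀ T : Finset k,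
      (∀ c ∈ T, ∀ c' ∈ T, (∃ d : k, c = c' * d ^ 2) → c = c') →
      (∀ c ∈ T, c ≠ 0 ∧ Pool.Agent.HG.cond c ≤ X ∧ ∀ v ∉ Bad, IsOdd v c →
        ∃ (O : ValuationSubring E) (F : E ≃ₐ[k] E) (p f : ℕ), DecPt v O F p f ∧ ∃ x : P, ρ F x = x) →
      (T.card : ℝ) ≤ C * X / Real.log X ^ η := by
  classical
  obtain ⟨L', hL', hρ⟩ := hc
  obtain ⟨σ₀, hσ₀⟩ := hσ
  have : CharZero E := charZero_of_injective_algebraMap (algebraMap k E).injective
  have hn : Normal k E := by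
    have : IsAlgClosure k E := ⟨inferInstance, inferInstance⟩
    exact IsAlgClosure.normal k E
  let M : IntermediateField k E := normalClosure k L' E
  have hMfin : FiniteDimensional k M := by
    change FiniteDimensional k (normalClosure k L' E)
    infer_instance
  have hMn : Normal k M := by
    change Normal k (normalClosure k L' E)
    infer_instance
  have hMg : IsGalois k M := ⟨⟩
  have hLM : L' ≤ M := le_normalClosure L'
  have hNF : NumberField M := NumberField.of_module_finite k M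
  -- two lifts
  have key : ∀ (τ : M ≃ₐ[k] M) (g g' : E ≃ₐ[k] E), (∀ x : M, g x = τ x) → (∀ x : M, g' x = τ x) →
      ρ g = ρ g' := by
    intro τ g g' hg hg'
    have h1 : ρ (g'⁻¹ * g) = 1 := by
      refine hρ _ fun x hx => ?_
      have h2 : g x = τ ⟨x, hLM hx⟩ := hg ⟨x, hLM hx⟩
      rw [AlgEquiv.mul_apply, h2, ← hg' ⟨x, hLM hx⟩]
      exact g'.symm_apply_apply _
    rw [map_mul, map_inv, inv_mul_eq_one] at h1
    exact h1.symm
  let C : Set (M ≃ₐ[k] M) := {τ | ∃ g : E ≃ₐ[k] E, (∀ x : M, g x = τ x) ∧ ∀ x : P, ρ g x ≠ x}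
  obtain ⟨B, hB⟩ := Pool.Agent.HG.exists_B5 k
  obtain ⟨C₀, Bad₂, Q, hBad₂, hQ, hsum⟩ := hW3 k M C (by
    rintro τ ⟨g, hg, hgf⟩ τ' hττ
    have h1 : τ' ∈ Subgroup.zpowers τ := by
      rw [← hττ]
      exact Subgroup.mem_zpowers τ'
    have h2 : τ ∈ Subgroup.zpowers τ' := by
      rw [hττ]
      exact Subgroup.mem_zpowers τ
    obtain ⟨n, rfl⟩ := Subgroup.mem_zpowers_iff.1 h1
    obtain ⟨m, hm⟩ := Subgroup.mem_zpowers_iff.1 h2
    refine ⟨g ^ n, lift_zpow17 hg n, fun x hx => ?_⟩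
    have h3 : ∀ x : M, ((g ^ n) ^ m) x = τ x := by
      intro x
      rw [lift_zpow17 (lift_zpow17 hg n) m x, hm]
    have h4 := key τ _ _ h3 hg
    refine hgf x ?_
    rw [← h4, map_zpow]
    have h5 : ∀ (e : Equiv.Perm P), e x = x → ∀ m : ℤ, (e ^ m) x = x := by
      intro e he m
      exact Equiv.Perm.zpow_apply_eq_self_of_apply_eq_self he m
    exact h5 _ hx m) (by
    rintro τ ⟨g, hg, hgf⟩ γ
    obtain ⟨g', hg'⟩ := exists_lift13 (E := E) M.val γ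
    have hg1 : ∀ x : M, g' x = γ x := hg'
    have hg2 : ∀ x : M, g'⁻¹ x = γ⁻¹ x := lift_inv17 hg1
    refine ⟨g' * g * g'⁻¹, ?_, fun x hx => ?_⟩
    · intro x
      rw [AlgEquiv.mul_apply, AlgEquiv.mul_apply, hg2, hg, hg1, AlgEquiv.mul_apply,
        AlgEquiv.mul_apply]
    · rw [map_mul, map_mul, map_inv, Equiv.Perm.mul_apply, Equiv.Perm.mul_apply] at hx
      refine hgf ((ρ g')⁻¹ x) ?_
      exact (Equiv.symm_apply_eq (ρ g')).2 hx.symm |>.symm) B hB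
  have hC : 0 < Nat.card C := by
    obtain ⟨τ, hτ⟩ := exists_res13 (E := E) M.val σ₀
    have hne : Nonempty C := ⟨⟨τ, σ₀, hτ, hσ₀⟩⟩
    exact Nat.card_pos
  have hG0 : (0 : ℝ) < Nat.card (M ≃ₐ[k] M) := by
    have : 0 < Nat.card (M ≃ₐ[k] M) := Nat.card_pos
    exact_mod_cast this
  have hC0 : (0 : ℝ) < Nat.card C := by exact_mod_cast hC
  obtain ⟨η, C', hη, hT⟩ := hCT k B hB _ _ Q _ (hBad.union hBad₂) (div_pos hC0 hG0) hsum
  refine ⟨η, C', hη, fun X hX T hT1 hT2 => hT X hX T hT1 fun c hc => ?_⟩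
  obtain ⟨g1, g2, g3⟩ := hT2 c hc
  refine ⟨g1, g2, fun v hv hvB hodd => ?_⟩
  rw [Set.mem_union, not_or] at hvB
  obtain ⟨O, F, p, f, hD, x, hx⟩ := g3 v hvB.1 hodd
  obtain ⟨P', hP, hPv⟩ := exists_below13 M.val hD
  obtain ⟨τ, hτ⟩ := exists_res13 M.val F
  rw [hQ v hvB.2 P' τ hPv (frob_below13 hD hP hτ)] at hv
  obtain ⟨g, hg, hgf⟩ := hv
  exact hgf x (by rw [key τ g F hg hτ]; exact hx)

end one

theorem lva : StmtLVF → StmtW3 → StmtCT → StmtLVA := by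
  classical
  intro hLVF hW3 hCT k E _ _ _ _ _ _ P _ A hA L hL Bad hBad
  have hfin := hLVF k E P A hA L hL Bad hBad
  -- the actions with an element without fixed point
  let R : Set ((E ≃ₐ[k] E) →* Equiv.Perm P) := {ρ | (∃ c : k, Rep A L Bad c ρ) ∧
    ∃ σ : E ≃ₐ[k] E, ∀ x : P, ρ σ x ≠ x}
  have hR : R.Finite := hfin.subset fun ρ h => h.1
  have hone : ∀ ρ : (E ≃ₐ[k] E) →* Equiv.Perm P, ∃ η C : ℝ, 0 < η ∧ (ρ ∈ R → ∀ X : ℕ, 3 ≤ X →
      ∀ T : Finset k, (∀ c ∈ T, ∀ c' ∈ T, (∃ d : k, c = c' * d ^ 2) → c = c') →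
      (∀ c ∈ T, c ≠ 0 ∧ Pool.Agent.HG.cond c ≤ X ∧ ∀ v ∉ Bad, IsOdd v c →
        ∃ (O : ValuationSubring E) (F : E ≃ₐ[k] E) (p f : ℕ), DecPt v O F p f ∧ ∃ x : P, ρ F x = x) →
      (T.card : ℝ) ≤ C * X / Real.log X ^ η) := by
    intro ρ
    by_cases hρ : ρ ∈ R
    · obtain ⟨⟨c, hc⟩, hσ⟩ := hρ
      obtain ⟨η, C, h1, h2⟩ := one17 hW3 hCT ρ hc.cont hσ Bad hBad
      exact ⟨η, C, h1, fun _ => h2⟩
    · exact ⟨1, 0, one_pos, fun h => absurd h hρ⟩
  choose η C hη hbound using hone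
  intro ε hε
  have hlim : Tendsto (fun X : ℕ => ∑ ρ ∈ hR.toFinset, C ρ / Real.log X ^ η ρ) atTop (𝓝 0) := by
    have h1 : ∀ ρ ∈ hR.toFinset, Tendsto (fun X : ℕ => C ρ / Real.log X ^ η ρ) atTop (𝓝 0) := by
      intro ρ _
      have h2 : Tendsto (fun X : ℕ => Real.log X ^ η ρ) atTop atTop :=
        (tendsto_rpow_atTop (hη ρ)).comp (Real.tendsto_log_atTop.comp tendsto_natCast_atTop_atTop)
      exact h2.const_div_atTop (C ρ)
    have h3 := tendsto_finsetSum hR.toFinset h1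
    rw [Finset.sum_const_zero] at h3
    exact h3
  filter_upwards [hlim.eventually (gt_mem_nhds hε), eventually_ge_atTop 3] with X hX hX3 T hT1 hT2
  have hcov : T ⊆ hR.toFinset.biUnion fun ρ => T.filter fun c => Rep A L Bad c ρ := by
    intro c hc
    obtain ⟨_, _, ρ, hρ, hσ⟩ := hT2 c hc
    exact Finset.mem_biUnion.2 ⟨ρ, hR.mem_toFinset.2 ⟨⟨c, hρ⟩, hσ⟩, Finset.mem_filter.2 ⟨hc, hρ⟩⟩
  have h1 := (Finset.card_le_card hcov).trans Finset.card_biUnion_le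
  have h2 : ∀ ρ ∈ hR.toFinset, ((T.filter fun c => Rep A L Bad c ρ).card : ℝ) ≤
      C ρ / Real.log X ^ η ρ * X := by
    intro ρ hρ
    rw [div_mul_eq_mul_div]
    refine hbound ρ (hR.mem_toFinset.1 hρ) X hX3 _ ?_ ?_
    · intro c hc c' hc' h
      exact hT1 c (Finset.mem_filter.1 hc).1 c' (Finset.mem_filter.1 hc').1 h
    · intro c hc
      obtain ⟨h4, h5⟩ := Finset.mem_filter.1 hc
      exact ⟨(hT2 c h4).1, (hT2 c h4).2.1, fun v hv hodd => h5.odd v hv hodd⟩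
  calc (T.card : ℝ) ≤ ∑ ρ ∈ hR.toFinset, ((T.filter fun c => Rep A L Bad c ρ).card : ℝ) := by
        exact_mod_cast h1
    _ ≤ ∑ ρ ∈ hR.toFinset, C ρ / Real.log X ^ η ρ * X := Finset.sum_le_sum h2
    _ = (∑ ρ ∈ hR.toFinset, C ρ / Real.log X ^ η ρ) * X := by rw [Finset.sum_mul]
    _ ≤ ε * X := mul_le_mul_of_nonneg_right hX.le (Nat.cast_nonneg X)

end Pool.Agent.TW
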